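import Pool.Agent.N753.DR.Stm7
import Pool.Agent.N225.PC.ProxM

/-!
# Project PC, part ZERO: few tuples lie on a given hypersurface
-/

set_option autoImplicit false

namespace Pool.Agent.N134.PC

open NumberField IsDedekindDomain Module Polynomial
open Pool.Agent.N753.DR
open Pool.Agent.N262.DR (gp gp_eq pow_bound Bx_finite)
open Pool.Agent.N225.PC (red1 ht_finite lN_pos)

/-- denominators are cleared -/
theorem clear (K : Type) [Field K] [NumberField K] {m : ℕ} (G : MvPolynomial (Fin m) K)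
    (hG : G ≠ 0) : ∃ G0 : MvPolynomial (Fin m) (𝓞 K), G0 ≠ 0 ∧
      ∀ (L : Type) [Field L] [NumberField L] [Algebra K L] (x : Fin m → L),
        MvPolynomial.aeval x G = 0 → MvPolynomial.aeval x G0 = 0 := by
  classical
  obtain ⟨b, hb⟩ := IsLocalization.exist_integer_multiples_of_finset
    (nonZeroDivisors (𝓞 K)) (G.support.image fun s => G.coeff s)
  have h : ∀ s : Fin m →₀ ℕ, ∃ a : 𝓞 K, algebraMap (𝓞 K) K a =
      algebraMap (𝓞 K) K (b : 𝓞 K) * G.coeff s := by
    intro s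
    by_cases hs : s ∈ G.support
    · obtain ⟨a, ha⟩ := hb (G.coeff s) (Finset.mem_image_of_mem _ hs)
      refine ⟨a, ?_⟩
      rw [ha, Algebra.smul_def]
    · refine ⟨0, ?_⟩
      rw [MvPolynomial.notMem_support_iff.1 hs, mul_zero, map_zero]
  choose a ha using h
  have hmap : MvPolynomial.map (algebraMap (𝓞 K) K)
      (∑ s ∈ G.support, MvPolynomial.monomial s (a s)) =
      MvPolynomial.C (algebraMap (𝓞 K) K (b : 𝓞 K)) * G := by
    rw [map_sum]
    conv_rhs => rw [← MvPolynomial.support_sum_monomial_coeff G]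
    rw [Finset.mul_sum]
    refine Finset.sum_congr rfl fun s _ => ?_
    rw [MvPolynomial.map_monomial, ha, MvPolynomial.C_mul_monomial]
  have hb0 : algebraMap (𝓞 K) K (b : 𝓞 K) ≠ 0 := by
    intro h0
    exact nonZeroDivisors.coe_ne_zero b
      ((map_eq_zero_iff _ (FaithfulSMul.algebraMap_injective (𝓞 K) K)).1 h0)
  refine ⟨∑ s ∈ G.support, MvPolynomial.monomial s (a s), ?_, ?_⟩
  · intro h0
    rw [h0, map_zero] at hmap
    have h1 := (mul_eq_zero.1 hmap.symm).resolve_right hG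
    rw [MvPolynomial.C_eq_zero] at h1
    exact hb0 h1
  · intro L _ _ _ x hx
    rw [← MvPolynomial.aeval_map_algebraMap K, hmap, map_mul, hx, mul_zero]

theorem exists_v (K : Type) [Field K] [NumberField K] :
    Nonempty (HeightOneSpectrum (𝓞 K)) := by
  obtain ⟨M, hM⟩ := Ideal.exists_maximal (𝓞 K)
  exact ⟨⟨M, hM.isPrime, Ring.ne_bot_of_isMaximal_of_not_isField hM
    (RingOfIntegers.not_isField K)⟩⟩

/-- **PC/ZERO** -/
theorem t (h1 : StmElim) (h2 : StmPolyV) (h3 : StmRed) (h4 : StmCntAll) : StmZero := by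
  classical
  intro K _ _ m r hr G hG
  obtain ⟨G0, hG0, hGG⟩ := clear K G hG
  obtain ⟨R, hR0, hR⟩ := h1 K m r G0 hr hG0
  obtain ⟨v⟩ := exists_v K
  obtain ⟨ν0, C0', hν0, hcnt⟩ := h2 K m (fun i => r i + 1) r (fun i => Nat.le_add_left 1 _) hr
        R hR0 v 1 one_pos
  set C0 : ℝ := |C0'| with hC0d
  have hC0 : 0 ≤ C0 := abs_nonneg _
  set d : ℝ := (finrank ℚ K : ℝ) with hd
  have hd1 : 1 ≤ d := by
    rw [hd]
    exact_mod_cast (Module.finrank_pos : 0 < finrank ℚ K)
  have hd0 : 0 < d := by linarith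
  set D : ℝ := ∑ i, (r i : ℝ) * (r i + 1) with hD
  choose CR hCR hred using fun i => red1 h3 K (r i) (hr i)
  set c0 : ℝ := 1 + ∑ i, CR i with hc0
  have hc01 : 1 ≤ c0 := by
    have : 0 ≤ ∑ i, CR i := Finset.sum_nonneg fun i _ => (hCR i).le
    linarith
  have hCRc : ∀ i, CR i ≤ c0 := by
    intro i
    have := Finset.single_le_sum (f := CR) (fun i _ => (hCR i).le) (Finset.mem_univ i)
    linarith
  set ν : ℝ := ν0 / d with hν
  refine ⟨ν, C0 * (2 * c0) ^ |d * D - ν0|, by positivity, fun T hT => ?_⟩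
  have hfin := ht_finite h4 K r hr T hT
  refine ⟨hfin.subset fun P hP => hP.2, ?_⟩
  set y : ℝ := Real.exp (T / d) with hy
  have hy1 : 1 ≤ y := Real.one_le_exp (by positivity)
  set B : ℕ := ⌈c0 * y⌉₊ with hB
  have hBl : c0 * y ≤ B := Nat.le_ceil _
  have hBu : (B : ℝ) ≤ 2 * c0 * y := by
    have := Nat.ceil_lt_add_one (a := c0 * y) (by positivity)
    have : 1 ≤ c0 * y := one_le_mul_of_one_le_of_one_le hc01 hy1
    linarith
  have hyB : y ≤ B := by
    have : 1 * y ≤ c0 * y := mul_le_mul_of_nonneg_right hc01 (by positivity)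
    linarith
  have hB1' : (1 : ℝ) ≤ B := hy1.trans hyB
  have hB1 : 1 ≤ B := by exact_mod_cast hB1'
  set E : Set (∀ i, Fin (r i + 1) → 𝓞 K) :=
    {c | (∀ i, c i ∈ Bx K (r i + 1) (B ^ r i)) ∧
      ∃ e : ℕ, MvPolynomial.eval (fun s => c s.1 s.2) R ∈ v.asIdeal ^ e ∧
        1 * Real.log B ≤ e * lN v ∧ 1 ≤ e} with hE
  have hsub : {P : Fin m → K[X] | (∃ (L : Type) (_ : Field L) (_ : NumberField L)
      (_ : Algebra K L) (x : Fin m → L), (∀ i, minpoly K (x i) = P i) ∧
      MvPolynomial.aeval x G = 0) ∧ HT r T P} ⊆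
      (fun (c : ∀ i, Fin (r i + 1) → 𝓞 K) i => gp (c i)) '' E := by
    rintro P ⟨⟨L, _, _, _, x, hxP, hxG⟩, hHT⟩
    choose c hcP hc0' hcsz hcx using fun i => hred i T (P i) (hHT i)
    refine ⟨c, ?_, funext fun i => hcP i⟩
    have hbox : ∀ i, c i ∈ Bx K (r i + 1) (B ^ r i) := by
      intro i j
      have e1 := hcsz i j
      have e2 : Real.exp (r i * T / finrank ℚ K) = y ^ r i := by
        rw [hy, ← Real.exp_nat_mul, mul_div_assoc]
      rw [e2] at e1
      have e3 : c0 * y ^ r i ≤ (c0 * y) ^ r i := by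
        rw [mul_pow]
        exact mul_le_mul_of_nonneg_right (le_self_pow₀ hc01 (by have := hr i; omega))
          (by positivity)
      have e4 : (c0 * y) ^ r i ≤ (B : ℝ) ^ r i := pow_le_pow_left₀ (by positivity) hBl _
      have e5 : CR i * y ^ r i ≤ c0 * y ^ r i :=
        mul_le_mul_of_nonneg_right (hCRc i) (by positivity)
      have e6 : (sz (c i j) : ℝ) ≤ (B : ℝ) ^ r i := by linarith
      exact_mod_cast e6
    have hz : MvPolynomial.eval (fun s : Σ i, Fin (r i + 1) => c s.1 s.2) R = 0 := by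
      obtain ⟨b, hb⟩ := hR L x c (fun i => by
        have := hcx i L (x i) (hxP i)
        rw [← this]
        refine Finset.sum_congr rfl fun j _ => ?_
        rw [IsScalarTower.algebraMap_apply (𝓞 K) K L])
      rw [hGG L x hxG, mul_zero, IsScalarTower.algebraMap_apply (𝓞 K) K L,
        map_eq_zero_iff _ (algebraMap K L).injective,
        map_eq_zero_iff _ (FaithfulSMul.algebraMap_injective (𝓞 K) K)] at hb
      exact hb
    obtain ⟨n, hn⟩ := exists_nat_ge (Real.log B / lN v)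
    refine ⟨hbox, n + 1, ?_, ?_, Nat.le_add_left 1 n⟩
    · rw [hz]
      exact Submodule.zero_mem _
    · rw [div_le_iff₀ (lN_pos v)] at hn
      push_cast
      have := lN_pos v
      nlinarith
  have hEf : E.Finite := by
    have e1 : {c : ∀ i, Fin (r i + 1) → 𝓞 K |
        ∀ i, c i ∈ Bx K (r i + 1) (B ^ r i)}.Finite :=
      Set.Finite.pi' fun i => Bx_finite (K := K) (r i + 1) (B ^ r i)
    exact e1.subset fun c hc => hc.1
  have e1 : ({P : Fin m → K[X] | (∃ (L : Type) (_ : Field L) (_ : NumberField L)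
      (_ : Algebra K L) (x : Fin m → L), (∀ i, minpoly K (x i) = P i) ∧
      MvPolynomial.aeval x G = 0) ∧ HT r T P}.ncard : ℝ) ≤ (E.ncard : ℝ) := by
    exact_mod_cast (Set.ncard_le_ncard hsub (hEf.image _)).trans (Set.ncard_image_le hEf)
  have hcntB : (E.ncard : ℝ) ≤ C0' * (B : ℝ) ^ (d * D - ν0) := by
    have := hcnt B hB1
    push_cast at this
    exact this
  refine e1.trans (hcntB.trans ?_)
  have e2 := pow_bound (c := 2 * c0) (B := B) (y := y) (E := d * D - ν0) (by linarith)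
    (by positivity) hyB hBu
  have e3 : y ^ (d * D - ν0) = Real.exp ((D - ν) * T) := by
    rw [hy, ← Real.exp_mul, hν]
    congr 1
    field_simp
  rw [e3] at e2
  calc C0' * (B : ℝ) ^ (d * D - ν0) ≤ C0 * (B : ℝ) ^ (d * D - ν0) :=
        mul_le_mul_of_nonneg_right (le_abs_self _) (Real.rpow_nonneg (by linarith) _)
    _ ≤ C0 * ((2 * c0) ^ |d * D - ν0| * Real.exp ((D - ν) * T)) := by gcongr
    _ = C0 * (2 * c0) ^ |d * D - ν0| * Real.exp ((D - ν) * T) := by ring

end Pool.Agent.N134.PC
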